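import Pool.Agent.Q93.FullMono.Select

/-!
Every bounded real sequence admits fully monotonic admissible weights.
-/

namespace Pool.Agent.Results.MP_968b24_an.MonotoneWeights

open Q93.FullMono

/-- **Every bounded real sequence `s` admits a sequence `l` of positive weights with divergent sum,
fully monotonic (hence also nonincreasing), for which the weighted means of `s` converge.** -/
theorem result (s : ℕ → ℝ) (hs : ∃ C : ℝ, ∀ n, |s n| ≤ C) :
    ∃ (l : ℕ → ℝ) (L : ℝ), AdmissibleWith l s L ∧ FullyMonotonic l ∧ Antitone l := by
  obtain ⟨C, hC⟩ := hs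
  obtain ⟨l, L, h1, h2, -⟩ := exists_weights hC (m := fun i => i + 2)
    (fun i j h => by simpa using h) (fun i => by simp)
  refine ⟨l, L, h2, h1, antitone_nat_of_succ_le fun n => ?_⟩
  have := h1 1 n le_rfl
  simp only [diffs] at this
  linarith

end Pool.Agent.Results.MP_968b24_an.MonotoneWeights
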