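import Pool.Agent.Q93.FullMono.Select

/-!
Two fully monotonic admissible weight sequences can give different limits.
-/

namespace Pool.Agent.Results.MP_968b24_an.TwoLimits

open Q93.FullMono

/-- **There are a sequence `s` with all terms in `{0, 1}` and two fully monotonic sequences `l'`,
`l''`, both admissible for `s`, whose weighted means of `s` have different limits.** -/
theorem result : ∃ s : ℕ → ℝ, (∀ n, s n = 0 ∨ s n = 1) ∧
    ∃ (l' l'' : ℕ → ℝ) (L' L'' : ℝ), FullyMonotonic l' ∧ FullyMonotonic l'' ∧
      AdmissibleWith l' s L' ∧ AdmissibleWith l'' s L'' ∧ L' ≠ L'' :=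
  exists_two_limits

end Pool.Agent.Results.MP_968b24_an.TwoLimits
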